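import Pool.Agent.Y463.QT.Trefoil

/-!
# The normalised Kauffman bracket on a shadow: bounds for every shadow, and for sparse ones

The definitions of `GaussWord N` (the shadow of a knot diagram with `N` crossings on an arbitrary
closed oriented surface, or virtual, given by the order in which the crossings are passed),
`fPoly G w` (the normalised Kauffman bracket of the diagram with shadow `G` and crossing signs `w`)
and `Crosses G i j` (the chords of the crossings `i` and `j` cross) are those of the starting
library `Pool.Agent.H832R2.JR.Defs`. In `Pool.Agent.Y463.QT.Final` the following are defined: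
`degree G a` (the number of chords which cross the chord `a`), `hits G F` (the number of the `2 ^ N`
choices of the crossings for which the normalised bracket is `F`) and `IsSemiInduced G u v` (`k`
pairs `u i`, `v i` of crossing chords such that the chords `u i` do not cross each other and `u i`
crosses none of the chords `v j` with `j ≠ i`).
-/

set_option autoImplicit false

namespace Pool.Agent.Results.MP_7bc610_gt.SparseShadows

open Pool.Agent.H832R2.JR Pool.Agent.Y463.QT LaurentPolynomial

/-- Let `G` be the Gauss word of a knot shadow with `N` crossings (planar or not), and let `F` be a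
Laurent polynomial (for instance `F = 1`).

* If the chord `a` crosses `r` other chords, then `hits G F / 2 ^ N` is at most
  `(1 + p) / 2` with `p = binomial(r, ⌊r / 2⌋) / 2 ^ r`.
* If some chord crosses an odd number of chords, then `hits G F ≤ 2 ^ N / 2`.
* If two chords cross, then `hits G F ≤ (3 / 4) 2 ^ N`: at least a quarter of the diagrams with
  this shadow have a normalised bracket different from `F`.
* If there is a semi-induced matching of size `k`, then `hits G F ≤ 4 k ^ (-1/2) 2 ^ N`.
* If every chord crosses at most `Δ` chords and `n₀` chords cross some chord, then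
  `hits G F ≤ 4 (Δ + 1) n₀ ^ (-1/2) 2 ^ N`.

The constant `3 / 4` is the best possible one: for the shadow of the trefoil (three crossings,
any two chords cross) the normalised bracket is trivial for six of the eight choices. -/
theorem result : (∀ (N : ℕ) (G : GaussWord N) (F : ℤ[T;T⁻¹]),
    (∀ a : Fin N, 2 * 2 ^ degree G a * hits G F ≤
      (2 ^ degree G a + (degree G a).choose (degree G a / 2)) * 2 ^ N) ∧
    (∀ a : Fin N, Odd (degree G a) → 2 * hits G F ≤ 2 ^ N) ∧
    (∀ a b : Fin N, Crosses G a b → 4 * hits G F ≤ 3 * 2 ^ N) ∧
    (∀ (k : ℕ) (u v : Fin k → Fin N), IsSemiInduced G u v →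
      (hits G F : ℝ) * √(k : ℝ) ≤ 4 * 2 ^ N) ∧
    ∀ Δ : ℕ, (∀ a, degree G a ≤ Δ) →
      (hits G F : ℝ) * √(Nat.card {a : Fin N // ∃ b, Crosses G a b} : ℝ) ≤
        4 * (Δ + 1) * 2 ^ N) ∧
    Crosses trefoil 0 1 ∧ 4 * hits trefoil 1 = 3 * 2 ^ 3 :=
  ⟨fun _ G F => ⟨one_chord G F, odd_chord G F, three_quarters G F,
    fun _ u v h => semi_bound G F u v h, degree_bound G F⟩, crosses_tr, by rw [trefoil_hits]; rfl⟩

end Pool.Agent.Results.MP_7bc610_gt.SparseShadows
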