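import Pool.Agent.Y463.RW.Fin

/-!
# A zero-one law for random elements of arbitrary finitely generated groups of braids

Diagrams (starting library `Pool.Agent.H891R2.Jones.Diagram`): `Diagram P` (oriented link diagrams,
planar or not), `Diagram.fPoly` (the normalised bracket `(-A^{-3})^{w(D)} ⟨D⟩ ∈ ℤ[A, A⁻¹]`, `A = T 1`,
i.e. the Jones polynomial `V(t)` with `t = A^{-4}`), `Diagram.IsClosed` (the pieces of the diagram fit
together to closed oriented curves), `Outer m` (an oriented diagram with an open box through which `m`
strands run, each of them in one of the two directions: `O.up`), `Outer.close` (the open box is filled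
with `m` vertical strands without crossings).  Starting library `Pool.Agent.W639.RB.Defs`: `Letter m`
(the letters `σ_i^{±1}` of the braid group on `m` strands), `draw` (draw a word in the box).

Definitions of `Pool.Agent.Y463.SK.Defs` and `Pool.Agent.Y463.RW.Defs`, for words (lists of letters):
`permW w` (the permutation of the strands), `invW w` (the inverse word), `dia O w` (the diagram obtained
by drawing `w` in the box of `O` and filling the rest of the box with vertical strands), `prodW w u` (the
product `w_{i_1}^{±1} ⋯ w_{i_n}^{±1}` given by the sequence `u` of `n` pairs `(i, ±)`).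

Proof: modulo `A + 1` the pure braids act trivially in the Temperley-Lieb algebra over `ℤ[A, A⁻¹]`, and
an `(A+1)`-adic argument shows that no power of a pure braid fixes a subspace which the braid itself
does not fix.  Hence the subspaces which are not invariant under the pure elements of the group have
infinite orbits, on which random walks spread (two independent walks of length `n` meet with
probability `O(n^{-1/3})`), and an induction on the dimension of subspaces gives the result.
-/

set_option autoImplicit false

namespace Pool.Agent.Results.MP_7bc610_gt.SubgroupZeroOneLaw

open Finset LaurentPolynomial Pool.Agent.H891R2.Jones Pool.Agent.W639.RB Pool.Agent.Y463.SK 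
  Pool.Agent.Y463.RW

open Classical in
/-- **Zero-one law.**  For all `m, s ≥ 1` there is a constant `C`, depending only on `m` and `s`, with the
following property.  Let `w_1, …, w_s` be arbitrary braid words on `m` strands, let `O` be any oriented
link diagram with an open box through which `m` strands run, let `v` be a further braid word, `F` a
Laurent polynomial (for instance `1`, the Jones polynomial of the unknot) and `τ` a permutation of the
strands.  Consider the products `u = w_{i_1}^{±1} ⋯ w_{i_n}^{±1}` with permutation `τ` and the diagrams
obtained by drawing `u v` in the box (they are closed diagrams if `O.close` is closed and the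
permutation of `u v` preserves the directions of the strands).

Either for all products `u` with permutation `τ`, of any length, this diagram has the Jones polynomial
`F`, or for every `n ≥ 1` at most `C n^{-c} (2 s)^n` of the `(2 s)^n` products of length `n` have the
permutation `τ` and give a diagram with the Jones polynomial `F`, where `c = 1 / (3 · 2^(m! 2^m + 2))`. -/
theorem result (m s : ℕ) (hm : 0 < m) (hs : 0 < s) : ∃ C : ℝ, 0 < C ∧ 
    ∀ (O : Outer m) (w : Fin s → List (Letter m)) (v : List (Letter m)) (τ : Equiv.Perm (Fin m)) 
      (F : ℤ[T;T⁻¹]),
      (O.close.IsClosed → (∀ j, O.up ((τ * permW v) j) = O.up j) → 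
        ∀ (n : ℕ) (u : Fin n → Fin s × Bool), permW (prodW w u) = τ → 
          (dia O (prodW w u ++ v)).IsClosed) ∧
      ((∀ (n : ℕ) (u : Fin n → Fin s × Bool), permW (prodW w u) = τ → 
          (dia O (prodW w u ++ v)).fPoly = F) ∨ 
        ∀ n : ℕ, 0 < n → ((univ.filter (fun u : Fin n → Fin s × Bool => 
          permW (prodW w u) = τ ∧ (dia O (prodW w u ++ v)).fPoly = F)).card : ℝ) ≤ 
            C * (n : ℝ) ^ (-(1 / (3 * 2 ^ (m.factorial * 2 ^ m + 2))) : ℝ) * (2 * s : ℝ) ^ n) := by
  refine ⟨Cst (2 * s : ℝ) (dimB m + 1), lt_of_lt_of_le one_pos (Cst_ge _ _), fun O w v τ F => ⟨?_, ?_⟩⟩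
  · intro hO hτ n u hu
    apply dia_closed O hO
    have h1 : permW (prodW w u ++ v) = τ * permW v := by
      rw [← hu]
      simp [permW]
    rw [h1]
    exact hτ
  · exact zero_one hm hs O w v F τ

end Pool.Agent.Results.MP_7bc610_gt.SubgroupZeroOneLaw
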