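import Pool.Agent.Y463.VT.HMain

/-!
# Crossing changes and nondegenerate random twist regions in diagrams on surfaces

Diagrams (starting library `Pool.Agent.H891R2.Jones.Diagram`): `Diagram P` (oriented diagrams with marked
points `P`; the arcs only say which marked points are joined, so these are diagrams of links in thickened
surfaces, that is, virtual link diagrams), `Diagram.fPoly` (the normalised bracket `(-A^{-3})^{w(D)} ⟨D⟩`, a
state sum in which all loops count equally), `Outer m` (the part of an oriented diagram outside a box
through which `m` strands run, with arbitrary directions).  `Pool.Agent.W639.RB.Defs` and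
`Pool.Agent.W705.JV.Defs` (starting library): `Letter m = Bool × Fin (m - 1)` (the letters `σ_i^{±1}`),
`VLetter m = Letter m ⊕ Fin (m - 1)` (with the virtual crossings), `drawV O w` (draws a word in the box of
`O`), `trV` (the transposition of a letter).

`Pool.Agent.Y463.SK.Defs`: `powW w n` (the word `w^n`, `n ∈ ℤ`).  `Pool.Agent.Y463.MP.Defs`: `nonmult N f` (the
number of the coefficients of `f` which are not divisible by `N`), `osize`, `dsize` (the number of crossings
and marked points of an outside, of a diagram).  `Pool.Agent.Y463.UT.Defs`: `Law` (probability distributions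
with finite support on `ℤ`), `Law.Spread ε` (no value has probability larger than `ε`), `prob μ E` (the
probability of `E` for independent integers with the distributions `μ_j`).  `Pool.Agent.Y463.VT.GDefs`:
`twG v i x` (the virtual braid word `v_1 σ_{i_1}^{x_1} ⋯ v_k σ_{i_k}^{x_k}`, the `v_j` being words of virtual
crossings), `diaV O w` (the diagram with the word `w` in the box), `pm v` (the permutation of a word of
virtual crossings), `pair i` (the places `i`, `i + 1`), `OneCommon i v i'` (the twist regions `σ_i` and
`σ_{i'}`, separated by `v`, have exactly one strand in common), `turnsG v i μ ε` (the number of `j` such that the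
`j`-th and the next twist region have exactly one strand in common and `ε`-spread exponents).

Proof.  As for `VirtualLittlewoodOfford` (same problem), with another estimate of the averages: if the
average of a function in `ℓ²(X)` over two twist regions with one common strand has nearly the same norm, then
the variance of the translates is small; as no exponent has probability larger than `ε < 1`, there are powers
`σ^d` and `σ'^{d'}`, `d, d' ≠ 0`, of the two twist regions which nearly fix a translate `g`.  The sets of
subspaces near the two places contain at most two consecutive points of each orbit of `σ` (of `σ'`), hence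
`g` is small on both of them, but they cover the support of `g`.
-/

set_option autoImplicit false

namespace Pool.Agent.Results.MP_7bc610_gt.VirtualCrossingChanges

open LaurentPolynomial Pool.Agent.H891R2.Jones Pool.Agent.W639.RB Pool.Agent.Y463.SK Pool.Agent.Y463.UT 
  Pool.Agent.Y463.MP Pool.Agent.Y463.VT

/-- **Unit Jones polynomials of virtual links: crossing changes and nondegenerate random exponents.**  Let
`m ≥ 3`.  There are constants `C` and `R` such that the following holds for all `N ≥ 2` and `0 ≤ ε < 1`.

* Let `O` be an outside of a box with `m` strands (part of a diagram on any surface), `v_1, …, v_k` words of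
  virtual crossings, `i_1, …, i_k` places, `x_1, …, x_k ∈ ℤ` independent random exponents (with finite supports
  and arbitrary distributions, for instance random signs: crossing changes in a fixed virtual braid shadow),
  and `u` such that for at least `u R` values of `j` the twist regions `σ_{i_j}^{x_j}` and
  `σ_{i_{j+1}}^{x_{j+1}}` of the virtual braid word `v_1 σ_{i_1}^{x_1} ⋯ v_k σ_{i_k}^{x_k}` have exactly one strand in
  common and no value of `x_j` or `x_{j+1}` has probability larger than `ε`.  Then for every Laurent polynomial
  `g` (for instance `g = 1`) the diagram with this word in the box has a normalised bracket congruent to `g`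
  modulo `N` with probability at most `C (1 - (1 - ε) / 20000)^u`.
* For every `κ` there are `δ > 0` and `C'` (independent of `O`, `k`, `v`, `i`, `u` and of the distributions) such
  that if moreover all the diagrams have at most `κ (u + 1)` crossings and marked points in the outside and
  crossings in the box, then with probability at most `C' (1 - (1 - ε) / 20000)^{u/2}` at most `δ u`
  coefficients of the normalised bracket are not divisible by `N`, and with at most the same probability the
  normalised bracket is congruent modulo `N` to the one of a diagram `D` on a surface with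
  `dsize D ≤ δ u / 8`. -/
theorem result (m : ℕ) (hm : 3 ≤ m) : ∃ (C : ℝ) (R : ℕ), ∀ N : ℕ, 2 ≤ N → ∀ ε : ℝ, 0 ≤ ε → ε < 1 → 
    (∀ (O : Outer m) (g : ℤ[T;T⁻¹]) (k : ℕ) (v : Fin k → List (Fin (m - 1))) (i : Fin k → Fin (m - 1)) 
      (μ : Fin k → Law) (u : ℕ), u * R ≤ turnsG v i μ ε → 
        prob μ (fun x => (N : ℤ[T;T⁻¹]) ∣ (diaV O (twG v i x)).fPoly - g) ≤ 
          C * (1 - (1 - ε) / 20000) ^ u) ∧ 
    (∀ κ : ℝ, ∃ δ : ℝ, 0 < δ ∧ ∃ C' : ℝ, ∀ (O : Outer m) (k : ℕ) (v : Fin k → List (Fin (m - 1))) 
      (i : Fin k → Fin (m - 1)) (μ : Fin k → Law) (u : ℕ), u * R ≤ turnsG v i μ ε → 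
        (∀ x ∈ Fintype.piFinset (fun j => (μ j).A), (osize O : ℝ) + ∑ j, |(x j : ℝ)| ≤ κ * (u + 1)) → 
          prob μ (fun x => (nonmult N (diaV O (twG v i x)).fPoly : ℝ) ≤ δ * u) ≤ 
            C' * √(1 - (1 - ε) / 20000) ^ u ∧ 
          prob μ (fun x => ∃ (P : Type) (_ : Finite P) (D : Diagram P), (dsize D : ℝ) ≤ δ / 8 * u ∧ 
            (N : ℤ[T;T⁻¹]) ∣ (diaV O (twG v i x)).fPoly - D.fPoly) ≤ 
              C' * √(1 - (1 - ε) / 20000) ^ u) := by
  refine ⟨CG m, (rV m + 1) * (rV m + 2), fun N hN ε hε0 hε => ⟨?_, ?_⟩⟩
  · intro O g k v i μ u hu
    exact finalH hm N hN O g k v i μ ε hε0 hε u hu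
  · intro κ
    obtain ⟨δ, hδ, C', h⟩ := finalH2 hm N hN κ ε hε0 hε
    obtain ⟨C'', h'⟩ := finalH3 (m := m) N κ ε δ C' hε0 hε hδ h
    refine ⟨δ, hδ, max C' C'', fun O k v i μ u hu hsz => ⟨?_, ?_⟩⟩
    · refine (h O k v i μ u hu hsz).trans ?_
      exact mul_le_mul_of_nonneg_right (le_max_left _ _) (by positivity)
    · refine (h' O k v i μ u hu hsz).trans ?_
      exact mul_le_mul_of_nonneg_right (le_max_right _ _) (by positivity)

end Pool.Agent.Results.MP_7bc610_gt.VirtualCrossingChanges
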