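import Pool.Agent.Y463.VT.GFin

/-!
# Random twist regions between arbitrary pairs of strands of a diagram on a surface

Diagrams (starting library `Pool.Agent.H891R2.Jones.Diagram`): `Diagram P` (oriented diagrams with marked
points `P`; the arcs only say which marked points are joined, so these are diagrams of links in thickened
surfaces, that is, virtual link diagrams), `Diagram.fPoly` (the normalised bracket `(-A^{-3})^{w(D)} ⟨D⟩`, a
state sum in which all loops count equally), `Outer m` (the part of an oriented diagram outside a box
through which `m` strands run, with arbitrary directions).  `Pool.Agent.W639.RB.Defs` and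
`Pool.Agent.W705.JV.Defs` (starting library): `Letter m = Bool × Fin (m - 1)` (the letters `σ_i^{±1}`),
`VLetter m = Letter m ⊕ Fin (m - 1)` (with the virtual crossings), `drawV O w` (draws a word in the box of
`O`), `trV` (the transposition of a letter).

`Pool.Agent.Y463.SK.Defs`: `powW w n` (the word `w^n`, `n ∈ ℤ`).  `Pool.Agent.Y463.MP.Defs`: `nonmult N f` (the
number of the coefficients of `f` which are not divisible by `N`), `osize`, `dsize` (the number of crossings
and marked points of an outside, of a diagram).  `Pool.Agent.Y463.UT.Defs`: `Law` (probability distributions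
with finite support on `ℤ`), `Law.Spread ε` (no value has probability larger than `ε`), `prob μ E` (the
probability of `E` for independent integers with the distributions `μ_j`).  `Pool.Agent.Y463.VT.GDefs`:
`twG v i x` (the virtual braid word `v_1 σ_{i_1}^{x_1} ⋯ v_k σ_{i_k}^{x_k}`, the `v_j` being words of virtual
crossings), `diaV O w` (the diagram with the word `w` in the box), `pm v` (the permutation of a word of
virtual crossings), `pair i` (the places `i`, `i + 1`), `OneCommon i v i'` (the twist regions `σ_i` and
`σ_{i'}`, separated by `v`, have exactly one strand in common), `turnsG v i μ ε` (the number of `j` such that the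
`j`-th and the next twist region have exactly one strand in common and `ε`-spread exponents).

Proof.  Modulo a prime `ℓ` the normalised brackets are the values of linear functionals on the orbit of a
vector of `B ⊗ L ⊕ L`, `B` the algebra generated by the Temperley–Lieb generators and the transpositions (a
module with a number of generators which only depends on `m`), `L` the algebraic closure of `𝔽_ℓ(A)`.  The
virtual braids act on the set `X` of pairs (directions, subspace).  Two twist regions with one common strand
are simultaneously conjugate, by a permutation of the strands, to the powers of `σ_1` and `σ_2`; for these the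
subspaces which are not stable under a Temperley–Lieb generator have an equivariant vector `q ∈ L²`, near one
of two places for a valuation with `|A| < 1`, and the averages over the random powers make the norms in
`ℓ²(X)` smaller by the factor `√(8ε)`.  The other subspaces are never reached, because a diagram with a
cup-cap pair in the box has a nonzero bracket at the roots of `A^4 + A^2 + 1` (where virtual crossings do not
matter).  An induction on the dimension of the subspaces gives the estimate.
-/

set_option autoImplicit false

namespace Pool.Agent.Results.MP_7bc610_gt.VirtualLittlewoodOfford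

open LaurentPolynomial Pool.Agent.H891R2.Jones Pool.Agent.W639.RB Pool.Agent.Y463.SK Pool.Agent.Y463.UT 
  Pool.Agent.Y463.MP Pool.Agent.Y463.VT

/-- **Unit Jones polynomials of virtual links with random twist regions.**  Let `m ≥ 3`.  There are constants
`C` and `R` such that for all `N ≥ 2` the following holds for all outsides `O` of a box with `m` strands (part
of a diagram on any surface), all words `v_1, …, v_k` of virtual crossings, all places `i_1, …, i_k`, all
independent random exponents `x_1, …, x_k ∈ ℤ` (with finite supports and arbitrary distributions), all `ε > 0`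
and all `u` such that for at least `u R` values of `j` the twist regions `σ_{i_j}^{x_j}` and
`σ_{i_{j+1}}^{x_{j+1}}` of the virtual braid word `v_1 σ_{i_1}^{x_1} ⋯ v_k σ_{i_k}^{x_k}` have exactly one strand in
common and no value of `x_j` or `x_{j+1}` has probability larger than `ε`:

* for every Laurent polynomial `g` (for instance `g = 1`) the diagram with this word in the box has a
  normalised bracket congruent to `g` modulo `N` with probability at most `C (8ε)^{u/2}`;
* for every `κ` there is `C'` (independent of `O`, `k`, `v`, `i`, `ε`, `u` and of the distributions) such that if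
  all the diagrams have at most `κ (u + 1) / ε` crossings and marked points in the outside and crossings in
  the box, then with probability at least `1 - C (C' ε)^{u/4}` more than `u/4` coefficients of the normalised
  bracket are not divisible by `N`, and with the same probability at least the normalised bracket is not
  congruent modulo `N` to the one of any diagram `D` on any surface with `16 dsize D + 4 ≤ u`. -/
theorem result (m : ℕ) (hm : 3 ≤ m) : ∃ (C : ℝ) (R : ℕ), ∀ N : ℕ, 2 ≤ N → 
    (∀ (O : Outer m) (g : ℤ[T;T⁻¹]) (k : ℕ) (v : Fin k → List (Fin (m - 1))) (i : Fin k → Fin (m - 1)) 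
      (μ : Fin k → Law) (ε : ℝ), 0 < ε → ∀ u : ℕ, u * R ≤ turnsG v i μ ε → 
        prob μ (fun x => (N : ℤ[T;T⁻¹]) ∣ (diaV O (twG v i x)).fPoly - g) ≤ C * (8 * ε) ^ ((u : ℝ) / 2)) ∧ 
    (∀ κ : ℝ, ∃ C' : ℝ, ∀ (O : Outer m) (k : ℕ) (v : Fin k → List (Fin (m - 1))) 
      (i : Fin k → Fin (m - 1)) (μ : Fin k → Law) (ε : ℝ), 0 < ε → ∀ u : ℕ, u * R ≤ turnsG v i μ ε → 
        (∀ x ∈ Fintype.piFinset (fun j => (μ j).A), (osize O : ℝ) + ∑ j, |(x j : ℝ)| ≤ κ * (u + 1) / ε) → 
          prob μ (fun x => 4 * nonmult N (diaV O (twG v i x)).fPoly ≤ u) ≤ C * (C' * ε) ^ ((u : ℝ) / 4) ∧ 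
          prob μ (fun x => ∃ (P : Type) (_ : Finite P) (D : Diagram P), 16 * dsize D + 4 ≤ u ∧ 
            (N : ℤ[T;T⁻¹]) ∣ (diaV O (twG v i x)).fPoly - D.fPoly) ≤ C * (C' * ε) ^ ((u : ℝ) / 4)) := by
  refine ⟨Real.exp 1 * CG m, (rV m + 1) * (rV m + 2), fun N hN => ⟨?_, ?_⟩⟩
  · intro O g k v i μ ε hε u hu
    have h1 := finalG hm N hN O g k v i μ ε hε u hu
    have h2 : 1 ≤ Real.exp 1 := Real.one_le_exp (by norm_num)
    have h3 : 0 ≤ CG m * (8 * ε) ^ ((u : ℝ) / 2) := (prob_nonneg μ _).trans h1
    rw [mul_assoc]
    exact h1.trans (le_mul_of_one_le_left h3 h2)
  · intro κ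
    obtain ⟨C', _, h⟩ := finalG2 hm N hN κ
    refine ⟨C', fun O k v i μ ε hε u hu hsz => ?_⟩
    have h1 := h O k v i μ ε hε u hu hsz
    exact ⟨h1, (finalG3 N O v i μ u).trans h1⟩

end Pool.Agent.Results.MP_7bc610_gt.VirtualLittlewoodOfford
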